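import Pool.Agent.Work.MP_5851c7_co.Main

set_option autoImplicit false

namespace Pool.Agent.Results.MP_5851c7_co.Fifty

open Pool.Agent.Work.MP_5851c7_co

/-- Every finite digraph without loops (opposite arcs allowed) has a strong locally irregular
arc colouring with 50 colours. -/
theorem result (V : Type) [Fintype V] [DecidableEq V] (A : Finset (V × V))
    (hA : ∀ a ∈ A, a.1 ≠ a.2) :
    ∃ c : V × V → Fin 50, ∀ i : Fin 50, StrongLocIrr (A.filter (fun a => c a = i)) :=
  col_fifty A hA

end Pool.Agent.Results.MP_5851c7_co.Fifty
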